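import Pool.Agent.helper81.PJ.Spec

/-! # Project pj (MP_f6e9a2_nt), row pj:DP -/

set_option autoImplicit false

open Finset

namespace Pool.Agent.PJ

open Pool.Agent.PY2

private theorem DP_num (q P N b L T w n1 : ℝ) (hq : 0 < q) (hP : 0 < P)
    (hb : 0 ≤ b) (hL : 0 < L) (hT : 1 ≤ T) (hn : 0 ≤ n1)
    (h : q ^ 2 * w ≤ (3 * N * b) ^ 2 * (10 ^ 4 * (3 * N) ^ 2 * b ^ 2 / P +
      10 ^ 5 * T * (3 * N) ^ 2 * b / L) * (32 * n1 * (24 * q * P))) :
    q * w ≤ 10 ^ 10 * n1 * T * (N ^ 4 * b ^ 3 * (b + P / L)) := by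
  have e1 : (3 * N * b) ^ 2 * (10 ^ 4 * (3 * N) ^ 2 * b ^ 2 / P +
      10 ^ 5 * T * (3 * N) ^ 2 * b / L) * (32 * n1 * (24 * q * P)) =
      q * (62208 * n1 * (N ^ 4 * b ^ 3) * (10 ^ 4 * b + 10 ^ 5 * T * (P / L))) := by
    field_simp
    ring
  rw [e1] at h
  have h1 : q * (q * w) ≤ q * (62208 * n1 * (N ^ 4 * b ^ 3) * (10 ^ 4 * b + 10 ^ 5 * T * (P / L))) := by
    calc q * (q * w) = q ^ 2 * w := by ring
      _ ≤ _ := h
  have h2 := le_of_mul_le_mul_left h1 hq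
  have h3 : 0 ≤ P / L := by positivity
  have h4 : 10 ^ 4 * b + 10 ^ 5 * T * (P / L) ≤ 10 ^ 5 * T * (b + P / L) := by
    nlinarith [mul_le_mul_of_nonneg_right hT hb]
  have h5 : 0 ≤ N ^ 4 * b ^ 3 := by positivity
  calc q * w ≤ 62208 * n1 * (N ^ 4 * b ^ 3) * (10 ^ 4 * b + 10 ^ 5 * T * (P / L)) := h2
    _ ≤ 62208 * n1 * (N ^ 4 * b ^ 3) * (10 ^ 5 * T * (b + P / L)) :=
        mul_le_mul_of_nonneg_left h4 (by positivity)
    _ = (62208 * 10 ^ 5) * (n1 * T * (N ^ 4 * b ^ 3 * (b + P / L))) := by ring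
    _ ≤ 10 ^ 10 * (n1 * T * (N ^ 4 * b ^ 3 * (b + P / L))) := by
        have hT0 : 0 ≤ T := by linarith
        refine mul_le_mul_of_nonneg_right (by norm_num) (by positivity)
    _ = _ := by ring

theorem DP (hMAX : MAX_stmt) (hNU1 : NU1_stmt) (hMO1 : MO1_stmt) (hMASS : MASS_stmt)
    (hCOL : COL_stmt) (hHOL : HOL_stmt) : DP_stmt := by
  intro p hp χ hχ N L n T B hL hnL hN hn4 hn2 hT
  have hp1 : 1 ≤ p := hp.out.one_lt.le
  have hT1 : 1 ≤ T := by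
    have e := hT 1 le_rfl hp1
    simpa using e
  have hpow : 1 ≤ 2 ^ n := Nat.one_le_two_pow
  have hLN : L ≤ N := le_trans (by nlinarith) hnL
  have hLp : L ≤ p := by omega
  have hp0 : (0 : ℝ) < p := by exact_mod_cast hp.out.pos
  have h1 := hNU1 p χ 2 N L n B (by norm_num) hL hLp hnL
  have hf := hMASS p (3 * N) L B hL
  have hg : ∀ x : ZMod p, 0 ≤ mj 2 n (c1 χ x) := fun x => (hMAX 2 n (c1 χ x) (by norm_num)).1
  have h2 := hHOL p (nu B (3 * N) L) (fun x => mj 2 n (c1 χ x)) 2 (by norm_num) hf.1 hg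
  have h3 := hCOL p (3 * N) L T B hL (by omega) (by omega) hT
  have h4 := hMO1 p χ hχ 2 n (by norm_num) hn2
  have hW : 0 ≤ WW χ B N L := by
    unfold WW
    refine Finset.sum_nonneg fun j _ => mul_nonneg (by positivity)
      (Finset.sum_nonneg fun z _ => norm_nonneg _)
  have hLr : (0 : ℝ) < L := by exact_mod_cast hL
  set q : ℝ := (2 : ℝ) ^ n with hq
  have hq1 : 1 ≤ q := one_le_pow₀ (by norm_num)
  have hq4 : q ^ 4 ≤ p := by
    rw [hq]
    exact_mod_cast hn4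
  have h4n : (4 : ℝ) ^ n = q ^ 2 := by
    rw [hq, ← pow_mul, mul_comm n 2, pow_mul]
    norm_num
  have hsq : q ^ 2 ≤ Real.sqrt p := by
    have e0 : (q ^ 2) ^ 2 ≤ (p : ℝ) := by
      have e1 : (q ^ 2) ^ 2 = q ^ 4 := by ring
      rw [e1]
      exact hq4
    exact Real.le_sqrt_of_sq_le e0
  have hsp : Real.sqrt p * Real.sqrt p = p := Real.mul_self_sqrt hp0.le
  have h5 : q ^ 4 * Real.sqrt p ≤ q ^ 2 * p := by
    calc q ^ 4 * Real.sqrt p = q ^ 2 * (q ^ 2 * Real.sqrt p) := by ring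
      _ ≤ q ^ 2 * (Real.sqrt p * Real.sqrt p) := by
          refine mul_le_mul_of_nonneg_left (mul_le_mul_of_nonneg_right hsq (Real.sqrt_nonneg _))
            (by positivity)
      _ = q ^ 2 * p := by rw [hsp]
  have h6 : ∑ x : ZMod p, mj 2 n (c1 χ x) ^ 4 ≤
      32 * ((n : ℝ) + 1) ^ 5 * (24 * q ^ 2 * p) := by
    calc ∑ x : ZMod p, mj 2 n (c1 χ x) ^ 4 ≤ _ := h4
      _ = 32 * ((n : ℝ) + 1) ^ 5 * (16 * q ^ 2 * p + 8 * (q ^ 4 * Real.sqrt p)) := by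
          push_cast
          ring
      _ ≤ 32 * ((n : ℝ) + 1) ^ 5 * (16 * q ^ 2 * p + 8 * (q ^ 2 * p)) := by
          refine mul_le_mul_of_nonneg_left (by linarith) (by positivity)
      _ = _ := by ring
  have hfs : 0 ≤ ∑ x : ZMod p, nu B (3 * N) L x := Finset.sum_nonneg fun x _ => hf.1 x
  have hmain : (q ^ 2) ^ 2 * WW χ B N L ^ 4 ≤ (3 * (N : ℝ) * B.card) ^ 2 *
      (10 ^ 4 * (3 * (N : ℝ)) ^ 2 * (B.card : ℝ) ^ 2 / p +
        10 ^ 5 * T * (3 * (N : ℝ)) ^ 2 * B.card / L) *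
      (32 * ((n : ℝ) + 1) ^ 5 * (24 * q ^ 2 * p)) := by
    calc (q ^ 2) ^ 2 * WW χ B N L ^ 4 = (q * WW χ B N L) ^ 4 := by ring
      _ ≤ (∑ x : ZMod p, nu B (3 * N) L x * mj 2 n (c1 χ x)) ^ 4 :=
          pow_le_pow_left₀ (by positivity) h1 4
      _ ≤ (∑ x : ZMod p, nu B (3 * N) L x) ^ 2 * (∑ x : ZMod p, nu B (3 * N) L x ^ 2) *
          ∑ x : ZMod p, mj 2 n (c1 χ x) ^ 4 := h2
      _ ≤ (3 * (N : ℝ) * B.card) ^ 2 *
          (10 ^ 4 * (3 * (N : ℝ)) ^ 2 * (B.card : ℝ) ^ 2 / p +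
            10 ^ 5 * T * (3 * (N : ℝ)) ^ 2 * B.card / L) *
          (32 * ((n : ℝ) + 1) ^ 5 * (24 * q ^ 2 * p)) := by
          have h7 : (∑ x : ZMod p, nu B (3 * N) L x) ^ 2 ≤ (3 * (N : ℝ) * B.card) ^ 2 := by
            refine pow_le_pow_left₀ hfs ?_ 2
            have e := hf.2
            push_cast at e
            exact e
          have h8 : ∑ x : ZMod p, nu B (3 * N) L x ^ 2 ≤
              10 ^ 4 * (3 * (N : ℝ)) ^ 2 * (B.card : ℝ) ^ 2 / p +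
                10 ^ 5 * T * (3 * (N : ℝ)) ^ 2 * B.card / L := by
            have e := h3
            push_cast at e
            exact e
          have h9 : 0 ≤ ∑ x : ZMod p, nu B (3 * N) L x ^ 2 :=
            Finset.sum_nonneg fun x _ => sq_nonneg _
          have h10 : 0 ≤ ∑ x : ZMod p, mj 2 n (c1 χ x) ^ 4 :=
            Finset.sum_nonneg fun x _ => by positivity
          exact mul_le_mul (mul_le_mul h7 h8 h9 (by positivity)) h6 h10 (by positivity)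
  rw [h4n]
  exact DP_num (q ^ 2) p N B.card L T (WW χ B N L ^ 4) (((n : ℝ) + 1) ^ 5) (by positivity) hp0
    (by positivity) hLr (by exact_mod_cast hT1) (by positivity) hmain

end Pool.Agent.PJ
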